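import Mathlib

namespace Pool.Agent.H.MP_05d054_an

open Set Metric MeasureTheory Filter Topology
open scoped ENNReal NNReal

/-- upper box-counting dimension of a totally bounded set -/
noncomputable def ubdim {X : Type} [MetricSpace X] (A : Set X) : ℝ≥0∞ :=
  limsup (fun r : ℝ≥0 => ENNReal.ofReal (Real.log (coveringNumber r A).toNat / -Real.log r))
    (𝓝[>] 0)

theorem cov_ne_top {X : Type} [MetricSpace X] {B : Set X} (hB : TotallyBounded B) {r : ℝ≥0}
    (hr : 0 < r) : coveringNumber r B ≠ ⊤ := by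
  obtain ⟨C, h1, h2, h3⟩ := exists_finite_isCover_of_totallyBounded hr.ne' hB
  exact ((h3.coveringNumber_le_encard h1).trans_lt h2.encard_lt_top).ne

theorem cov_of_lt {X : Type} [MetricSpace X] {B : Set X} (hB : TotallyBounded B) {u : ℝ≥0}
    (h : ubdim B < u) : ∃ r0 : ℝ≥0, 0 < r0 ∧ r0 ≤ 1 ∧ ∀ r : ℝ≥0, 0 < r → r < r0 →
      ∃ C : Finset X, B ⊆ ⋃ c ∈ C, closedBall c r ∧ (C.card : ℝ) * (r : ℝ) ^ (u : ℝ) ≤ 1 := by
  obtain ⟨r0, h0, h1⟩ := mem_nhdsGT_iff_exists_Ioo_subset.1 (eventually_lt_of_limsup_lt h)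
  refine ⟨min r0 1, lt_min h0 one_pos, min_le_right _ _, fun r hr hr' => ?_⟩
  have h2 := h1 ⟨hr, hr'.trans_le (min_le_left _ _)⟩
  have h3 : (r : ℝ) < 1 := hr'.trans_le (min_le_right _ _)
  have h4 : (0 : ℝ) < r := hr
  have h5 := Real.log_neg h4 h3
  have h6 := cov_ne_top hB hr
  refine ⟨finite_minimalCover.toFinset (s := minimalCover r B), ?_, ?_⟩
  · simpa using isCover_iff_subset_iUnion_closedBall.1 (isCover_minimalCover h6)
  · rw [← Set.ncard_eq_toFinset_card _ finite_minimalCover, Set.ncard, encard_minimalCover h6]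
    simp only [mem_ofPred_eq] at h2
    generalize (coveringNumber r B).toNat = n at h2
    rcases n.eq_zero_or_pos with rfl | hn
    · simp
    have h7 : (0 : ℝ) < n := by exact_mod_cast hn
    have h8 : Real.log n / -Real.log r ≤ u := by
      rw [← ENNReal.ofReal_coe_nnreal] at h2
      exact (ENNReal.ofReal_le_ofReal_iff u.coe_nonneg).1 h2.le
    rw [div_le_iff₀ (by linarith)] at h8
    rw [← Real.log_nonpos_iff (by positivity), Real.log_mul h7.ne' (by positivity),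
      Real.log_rpow h4]
    linarith

theorem dimH_prod_le {X Y : Type} [MetricSpace X] [MetricSpace Y] (A : Set X) {B : Set Y}
    (hB : TotallyBounded B) : dimH (A ×ˢ B) ≤ dimH A + ubdim B := by
  borelize X
  borelize (X × Y)
  suffices H : ∀ s u : ℝ≥0, dimH A < s → ubdim B < u → dimH (A ×ˢ B) ≤ (s + u : ℝ≥0) by
    refine ENNReal.le_of_forall_pos_le_add fun ε hε h => ?_
    obtain ⟨h1, h2⟩ := ENNReal.add_lt_top.1 h
    lift dimH A to ℝ≥0 using h1.ne with a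
    lift ubdim B to ℝ≥0 using h2.ne with b
    refine (H (a + ε / 2) (b + ε / 2) ?_ ?_).trans (le_of_eq ?_)
    · exact_mod_cast lt_add_of_pos_right _ (half_pos hε)
    · exact_mod_cast lt_add_of_pos_right _ (half_pos hε)
    · norm_cast
      rw [add_add_add_comm, add_halves]
  intro s u hs hu
  have hs0 : (0 : ℝ) < s := by exact_mod_cast (zero_le.trans_lt hs)
  obtain ⟨r0, h0, h1, h2⟩ := cov_of_lt hB hu
  choose! C hC1 hC2 using h2
  set δ : ℕ → ℝ≥0 := fun k => r0 * (1 / 2) ^ (k + 1) with hδ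
  have hδ0 : ∀ k, 0 < δ k := fun k => by positivity
  have hδ1 : ∀ k, δ k < r0 := fun k =>
    mul_lt_of_lt_one_right h0 (pow_lt_one₀ (by norm_num) (by norm_num) (by omega))
  have h3 : ∀ k, ∃ t : ℕ → Set X, A ⊆ ⋃ n, t n ∧ (∀ n, ediam (t n) ≤ δ k) ∧
      ∑' n, ediam (t n) ^ (s : ℝ) ≤ 1 := fun k => by
    have h4 := hausdorffMeasure_of_dimH_lt hs
    rw [Measure.hausdorffMeasure_apply] at h4
    have h5 := (le_iSup₂ (f := fun (r : ℝ≥0∞) (_ : 0 < r) => ⨅ (t : ℕ → Set X) (_ : A ⊆ ⋃ n, t n)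
      (_ : ∀ n, ediam (t n) ≤ r), ∑' n, ⨆ _ : (t n).Nonempty, ediam (t n) ^ (s : ℝ)) (δ k)
      (by exact_mod_cast hδ0 k)).trans_lt (h4.trans_lt one_pos)
    simp only [iInf_lt_iff] at h5
    obtain ⟨t, h6, h7, h8⟩ := h5
    refine ⟨t, h6, h7, le_trans (ENNReal.tsum_le_tsum fun n => ?_) h8.le⟩
    rcases (t n).eq_empty_or_nonempty with h | h
    · simp [h, hs0]
    · simp [h]
  choose t ht1 ht2 ht3 using h3
  set r : ℕ → ℕ → ℝ≥0 := fun k i => max (ediam (t k i)).toNNReal (δ k * (1 / 2) ^ i) with hr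
  have hfin : ∀ k i, ediam (t k i) ≠ ⊤ := fun k i => ((ht2 k i).trans_lt ENNReal.coe_lt_top).ne
  have hr0 : ∀ k i, 0 < r k i := fun k i => lt_max_of_lt_right (by have := hδ0 k; positivity)
  have hr1 : ∀ k i, r k i ≤ δ k := fun k i => max_le
    (by simpa using ENNReal.toNNReal_mono ENNReal.coe_ne_top (ht2 k i))
    (mul_le_of_le_one_right zero_le (pow_le_one₀ (by norm_num) (by norm_num)))
  have hd : ∀ k i (c : Y), ediam (t k i ×ˢ closedBall c (r k i)) ≤ (2 * r k i : ℝ≥0) :=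
    fun k i c => ediam_le fun x hx y hy => by
      rw [Prod.edist_eq]
      refine max_le ((edist_le_ediam_of_mem hx.1 hy.1).trans ?_) ?_
      · rw [← ENNReal.coe_toNNReal (hfin k i), ENNReal.coe_le_coe]
        exact (le_max_left _ _).trans (le_mul_of_one_le_left zero_le one_le_two)
      · rw [edist_le_coe, ← NNReal.coe_le_coe, coe_nndist]
        push_cast
        linarith [dist_triangle_right x.2 y.2 c, mem_closedBall.1 hx.2, mem_closedBall.1 hy.2]
  have key := Measure.hausdorffMeasure_le_liminf_tsum (s + u : ℝ≥0) (A ×ˢ B) (l := atTop)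
    (ι := fun k => Σ i : ℕ, C (r k i)) (fun k => (2 * δ k : ℝ≥0))
    (by
      have := (((NNReal.tendsto_pow_atTop_nhds_zero_of_lt_one (r := 1 / 2) (by norm_num)).comp
        (tendsto_add_atTop_nat 1)).const_mul r0).const_mul 2
      simp only [mul_zero] at this
      exact ENNReal.tendsto_coe.2 this)
    (fun k p => t k p.1 ×ˢ closedBall p.2.1 (r k p.1))
    (Eventually.of_forall fun k p => (hd k _ _).trans (by
      exact_mod_cast mul_le_mul_right (hr1 k p.1) 2))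
    (Eventually.of_forall fun k x hx => by
      obtain ⟨i, hi⟩ := mem_iUnion.1 (ht1 k hx.1)
      obtain ⟨c, hc, hx2⟩ := mem_iUnion₂.1 (hC1 _ (hr0 k i) ((hr1 k i).trans_lt (hδ1 k)) hx.2)
      exact mem_iUnion.2 ⟨⟨i, c, hc⟩, hi, hx2⟩)
  have hq : ((1 / 2 : ℝ≥0) : ℝ≥0∞) ^ (s : ℝ) < 1 :=
    ENNReal.rpow_lt_one (by norm_num) hs0
  refine dimH_le_of_hausdorffMeasure_ne_top (ne_top_of_le_ne_top (b := 2 ^ ((s + u : ℝ≥0) : ℝ) *
    (1 + (1 - ((1 / 2 : ℝ≥0) : ℝ≥0∞) ^ (s : ℝ))⁻¹)) ?_ (key.trans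
      (liminf_le_of_frequently_le' (Frequently.of_forall fun k => ?_))))
  · have := (tsub_pos_of_lt hq).ne'
    finiteness
  rw [ENNReal.tsum_sigma', ← ENNReal.tsum_geometric]
  calc _ ≤ ∑' i, 2 ^ ((s + u : ℝ≥0) : ℝ) * (ediam (t k i) ^ (s : ℝ) +
        (((1 / 2 : ℝ≥0) : ℝ≥0∞) ^ (s : ℝ)) ^ i) := ENNReal.tsum_le_tsum fun i => ?_
    _ ≤ _ := by
      rw [ENNReal.tsum_mul_left, ENNReal.tsum_add]
      gcongr
      exact ht3 k
  have h4 : ((C (r k i)).card : ℝ≥0∞) * (r k i : ℝ≥0∞) ^ (u : ℝ) ≤ 1 := by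
    rw [← ENNReal.coe_rpow_of_nonneg _ u.coe_nonneg]
    exact_mod_cast hC2 _ (hr0 k i) ((hr1 k i).trans_lt (hδ1 k))
  have h5 : (r k i : ℝ≥0∞) ^ (s : ℝ) ≤
      ediam (t k i) ^ (s : ℝ) + (((1 / 2 : ℝ≥0) : ℝ≥0∞) ^ (s : ℝ)) ^ i := by
    rcases max_choice (ediam (t k i)).toNNReal (δ k * (1 / 2) ^ i) with h | h <;>
      simp only [hr, h]
    · rw [ENNReal.coe_toNNReal (hfin k i)]
      exact le_self_add
    · refine le_trans ?_ le_add_self
      rw [← ENNReal.rpow_natCast, ← ENNReal.rpow_mul, mul_comm (s : ℝ), ENNReal.rpow_mul,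
        ENNReal.rpow_natCast]
      gcongr
      exact_mod_cast mul_le_of_le_one_left zero_le ((hδ1 k).le.trans h1)
  calc _ ≤ ∑' _c : C (r k i), ((2 * r k i : ℝ≥0) : ℝ≥0∞) ^ ((s + u : ℝ≥0) : ℝ) :=
        ENNReal.tsum_le_tsum fun c => ENNReal.rpow_le_rpow (hd k i c) (NNReal.coe_nonneg _)
    _ = 2 ^ ((s + u : ℝ≥0) : ℝ) * ((r k i : ℝ≥0∞) ^ (s : ℝ) *
          (((C (r k i)).card : ℝ≥0∞) * (r k i : ℝ≥0∞) ^ (u : ℝ))) := by
        rw [tsum_fintype, Finset.sum_const, Finset.card_univ, Fintype.card_coe, nsmul_eq_mul,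
          ENNReal.coe_mul, ENNReal.mul_rpow_of_nonneg _ _ (NNReal.coe_nonneg _), NNReal.coe_add,
          ENNReal.rpow_add_of_nonneg (x := r k i) _ _ s.coe_nonneg u.coe_nonneg]
        push_cast
        ring
    _ ≤ _ := by
        gcongr
        exact (mul_le_of_le_one_right' h4).trans h5

theorem finrank_le_dimH {E : Type} [NormedAddCommGroup E] [NormedSpace ℝ E]
    [FiniteDimensional ℝ E] [MeasurableSpace E] [BorelSpace E] (μ : Measure E)
    [μ.IsAddHaarMeasure] {s : Set E} (h : μ s ≠ 0) : (Module.finrank ℝ E : ℝ≥0∞) ≤ dimH s := by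
  by_contra h1
  exact h (measure_zero_of_dimH_lt (d := Module.finrank ℝ E)
    (Measure.absolutelyContinuous_isAddHaarMeasure μ μH[Module.finrank ℝ E]) (not_le.1 h1))

end Pool.Agent.H.MP_05d054_an
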